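import Pool.Agent.Y472.K.Defs

/-!
TK-VOL: the growth rate of the Turk's head links in terms of the function of Lobachevsky.

The number `1 / n` is replaced by a real parameter `s` in `[0, 1 / 4]`; both sides have the
derivative `-y(s)` and agree for `s = 0`.
-/

set_option autoImplicit false

namespace Pool.Agent.Y988.TK

open MeasureTheory Set Filter Topology
open scoped Real
open Pool.Agent.Y472.K (Lc lf Ep ga Ch yn bs Es Dn S_PAR S_VOL)

theorem ii_log (a b : ℝ) :
    IntervalIntegrable (fun t => Real.log (2 * Real.sin (π * t))) volume a b := by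
  have h : AnalyticOnNhd ℝ (fun t : ℝ => 2 * Real.sin (π * t)) (Set.uIcc a b) := by
    intro x _
    fun_prop
  exact h.meromorphicOn.intervalIntegrable_log

theorem Lc_cont : Continuous Lc := (intervalIntegral.continuous_primitive ii_log 0).neg

theorem Lc_deriv {δ : ℝ} (h0 : 0 < δ) (h1 : δ < 1) :
    HasDerivAt Lc (-Real.log (2 * Real.sin (π * δ))) δ := by
  have hs : 0 < Real.sin (π * δ) :=
    Real.sin_pos_of_pos_of_lt_pi (by positivity) (by nlinarith [Real.pi_pos])
  refine (intervalIntegral.integral_hasDerivAt_right (ii_log 0 δ) ?_ ?_).neg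
  · refine StronglyMeasurable.stronglyMeasurableAtFilter (Measurable.stronglyMeasurable ?_)
    fun_prop
  · refine ContinuousAt.log (by fun_prop) (by positivity)

theorem Lc_sub (a b : ℝ) : ∫ t in a..b, Real.log (2 * Real.sin (π * t)) = Lc a - Lc b := by
  unfold Lc
  rw [← intervalIntegral.integral_interval_sub_left (ii_log 0 b) (ii_log 0 a)]
  ring

theorem Lc_half : Lc (1 / 2) = 0 := by
  unfold Lc
  have h1 := intervalIntegral.integral_comp_mul_left (a := 0) (b := 1 / 2)
    (fun u => Real.log (2 * Real.sin u)) Real.pi_ne_zero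
  rw [h1, mul_zero]
  have h2 : ∫ u in (0 : ℝ)..(π * (1 / 2)), Real.log (2 * Real.sin u) =
      ∫ u in (0 : ℝ)..(π * (1 / 2)), (Real.log 2 + Real.log (Real.sin u)) := by
    refine intervalIntegral.integral_congr_ae (Filter.Eventually.of_forall fun u hu => ?_)
    rw [uIoc_of_le (by positivity)] at hu
    have h3 : 0 < Real.sin u :=
      Real.sin_pos_of_pos_of_lt_pi hu.1 (by linarith [hu.2, Real.pi_pos])
    rw [Real.log_mul (by norm_num) h3.ne']
  have h4 : IntervalIntegrable (fun u => Real.log (Real.sin u)) volume 0 (π * (1 / 2)) :=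
    intervalIntegrable_log_sin
  rw [h2, intervalIntegral.integral_add intervalIntegrable_const h4, intervalIntegral.integral_const]
  have h5 : π * (1 / 2) = π / 2 := by ring
  rw [h5, integral_log_sin_zero_pi_div_two, smul_eq_mul, smul_eq_mul]
  ring

theorem Lc_refl (x : ℝ) : Lc (1 - x) = - Lc x := by
  have h1 := intervalIntegral.integral_comp_sub_left (a := 1 / 2) (b := x)
    (fun t => Real.log (2 * Real.sin (π * t))) 1
  have h2 : ∀ t : ℝ, Real.log (2 * Real.sin (π * (1 - t))) = Real.log (2 * Real.sin (π * t)) := by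
    intro t
    have : π * (1 - t) = π - π * t := by ring
    rw [this, Real.sin_pi_sub]
  simp only [h2] at h1
  rw [Lc_sub, Lc_sub, show (1 : ℝ) - 1 / 2 = 1 / 2 by norm_num, Lc_half] at h1
  linarith

theorem Lc_dup {x : ℝ} (h0 : 0 ≤ x) (h1 : x < 1 / 2) : Lc (2 * x) = 2 * Lc x + 2 * Lc (x + 1 / 2) := by
  have a1 := intervalIntegral.integral_comp_mul_left (a := 0) (b := x)
    (fun t => Real.log (2 * Real.sin (π * t))) (two_ne_zero (α := ℝ))
  rw [Lc_sub, mul_zero] at a1
  have a2 : ∫ t in (0 : ℝ)..x, Real.log (2 * Real.sin (π * (2 * t))) =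
      ∫ t in (0 : ℝ)..x, (Real.log (2 * Real.sin (π * t)) +
        Real.log (2 * Real.sin (π * (t + 1 / 2)))) := by
    refine intervalIntegral.integral_congr_ae (Filter.Eventually.of_forall fun u hu => ?_)
    rw [uIoc_of_le h0] at hu
    have h3 : 0 < Real.sin (π * u) :=
      Real.sin_pos_of_pos_of_lt_pi (mul_pos Real.pi_pos hu.1) (by nlinarith [hu.2, Real.pi_pos])
    have h4 : 0 < Real.cos (π * u) :=
      Real.cos_pos_of_mem_Ioo ⟨by nlinarith [hu.1, Real.pi_pos], by nlinarith [hu.2, Real.pi_pos]⟩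
    have h5 : π * (u + 1 / 2) = π * u + π / 2 := by ring
    rw [h5, Real.sin_add_pi_div_two, ← Real.log_mul (by positivity) (by positivity)]
    congr 1
    have h6 : π * (2 * u) = 2 * (π * u) := by ring
    rw [h6, Real.sin_two_mul]
    ring
  have a3 := intervalIntegral.integral_comp_add_right (a := 0) (b := x)
    (fun t => Real.log (2 * Real.sin (π * t))) (1 / 2)
  have a4 : IntervalIntegrable (fun t => Real.log (2 * Real.sin (π * (t + 1 / 2)))) volume 0 x := by
    have := (ii_log (0 + 1 / 2) (x + 1 / 2)).comp_add_right (1 / 2)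
    simpa using this
  rw [a2, intervalIntegral.integral_add (ii_log 0 x) a4, a3, Lc_sub, Lc_sub, zero_add, Lc_half] at a1
  have h7 : Lc 0 = 0 := by unfold Lc; simp
  rw [h7, smul_eq_mul] at a1
  linarith

theorem base0 : 4 * Lc (1 / 6) = 6 * Lc (1 / 3) := by
  have h1 := Lc_dup (x := 1 / 6) (by norm_num) (by norm_num)
  have h2 := Lc_refl (1 / 3)
  rw [show (2 : ℝ) * (1 / 6) = 1 / 3 by norm_num, show (1 : ℝ) / 6 + 1 / 2 = 2 / 3 by norm_num] at h1
  rw [show (1 : ℝ) - 1 / 3 = 2 / 3 by norm_num] at h2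
  linarith

/-- an integral with a moving end point -/
theorem deriv_moving {F : ℝ → ℝ → ℝ} {c : ℝ → ℝ} {s c' : ℝ}
    (hF : Continuous (Function.uncurry F)) (hc : HasDerivAt c c' s) :
    HasDerivAt (fun u => ∫ t in (c s)..(c u), F u t) (c' * F s (c s)) s := by
  rw [hasDerivAt_iff_isLittleO]
  simp only [intervalIntegral.integral_same, sub_zero, smul_eq_mul]
  have h1 := hasDerivAt_iff_isLittleO.1 hc
  simp only [smul_eq_mul] at h1
  have e : (fun u => (∫ t in (c s)..(c u), F u t) - (u - s) * (c' * F s (c s))) =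
      fun u => (∫ t in (c s)..(c u), (F u t - F s (c s))) +
        (c u - c s - (u - s) * c') * F s (c s) := by
    funext u
    have hi : IntervalIntegrable (F u) volume (c s) (c u) :=
      (hF.comp (Continuous.prodMk_right u)).intervalIntegrable _ _
    rw [intervalIntegral.integral_sub hi intervalIntegrable_const, intervalIntegral.integral_const,
      smul_eq_mul]
    ring
  rw [e]
  refine Asymptotics.IsLittleO.add ?_ ?_
  · have h2 : (fun u => c u - c s) =O[𝓝 s] fun u => u - s := hc.isBigO_sub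
    refine Asymptotics.IsLittleO.trans_isBigO ?_ h2
    rw [Asymptotics.isLittleO_iff]
    intro ε hε
    have h3 : ContinuousAt (Function.uncurry F) (s, c s) := hF.continuousAt
    rw [Metric.continuousAt_iff] at h3
    obtain ⟨δ, hδ, h4⟩ := h3 ε hε
    have h5 : ∀ᶠ u in 𝓝 s, dist (c u) (c s) < δ :=
      Metric.tendsto_nhds.1 hc.continuousAt.tendsto δ hδ
    have h6 : ∀ᶠ u in 𝓝 s, dist u s < δ := Metric.ball_mem_nhds s hδ
    filter_upwards [h5, h6] with u h7 h8
    rw [Real.norm_eq_abs (c u - c s)]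
    refine intervalIntegral.norm_integral_le_of_norm_le_const fun t ht => ?_
    have h9 : dist t (c s) ≤ dist (c u) (c s) := by
      rw [Real.dist_eq, Real.dist_eq]
      rcases le_total (c s) (c u) with h10 | h10
      · rw [uIoc_of_le h10] at ht
        rw [abs_of_nonneg (by linarith [ht.1]), abs_of_nonneg (by linarith)]
        linarith [ht.2]
      · rw [uIoc_of_ge h10] at ht
        rw [abs_of_nonpos (by linarith [ht.2]), abs_of_nonpos (by linarith)]
        linarith [ht.1]
    have h11 := h4 (x := (u, t)) (by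
      rw [Prod.dist_eq]
      exact max_lt h8 (lt_of_le_of_lt h9 h7))
    rw [Real.dist_eq] at h11
    exact h11.le
  · have := h1.mul_isBigO (Asymptotics.isBigO_refl (fun _ : ℝ => F s (c s)) (𝓝 s))
    refine this.trans_isBigO ?_
    have h2 : (fun x : ℝ => (x - s) * F s (c s)) =O[𝓝 s] fun x => x - s := by
      have := (Asymptotics.isBigO_refl (fun x : ℝ => x - s) (𝓝 s)).mul
        (Asymptotics.isBigO_const_const (F s (c s)) (one_ne_zero (α := ℝ)) (𝓝 s))
      simpa using this
    exact h2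


/-! the parameters -/

noncomputable def Cc (s : ℝ) : ℝ := 2 + Real.cos (π * s) - 2 * Real.cos (π * s) ^ 2
noncomputable def Yy (s : ℝ) : ℝ := Real.arsinh (√(Cc s ^ 2 - 1))
noncomputable def bb (s : ℝ) : ℝ := Real.arccos (1 / 2 - Real.cos (π * s)) / (2 * π)
noncomputable def be (s : ℝ) : ℝ := Real.arccos (Real.cos (π * s) - 1 / 2) / 2

theorem cos_bd {s : ℝ} (h0 : 0 ≤ s) (h1 : s ≤ 1 / 4) : 7 / 10 < Real.cos (π * s) ∧ Real.cos (π * s) ≤ 1 := by
  refine ⟨?_, Real.cos_le_one _⟩
  have h2 : Real.cos (π / 4) ≤ Real.cos (π * s) :=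
    Real.cos_le_cos_of_nonneg_of_le_pi (by positivity) (by linarith [Real.pi_pos])
      (by nlinarith [Real.pi_pos])
  rw [Real.cos_pi_div_four] at h2
  have h3 : (14 / 10 : ℝ) < √2 := by
    rw [Real.lt_sqrt (by norm_num)]
    norm_num
  linarith

theorem cos_lt {s : ℝ} (h0 : 0 < s) (h1 : s ≤ 1 / 4) : Real.cos (π * s) < 1 := by
  have h2 : Real.cos (π * s) < Real.cos 0 :=
    Real.cos_lt_cos_of_nonneg_of_le_pi le_rfl (by nlinarith [Real.pi_pos]) (by positivity)
  rwa [Real.cos_zero] at h2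

theorem Cc_ge {s : ℝ} (h0 : 0 ≤ s) (h1 : s ≤ 1 / 4) : 1 ≤ Cc s := by
  obtain ⟨a, b⟩ := cos_bd h0 h1
  unfold Cc
  nlinarith

theorem Cc_gt {s : ℝ} (h0 : 0 < s) (h1 : s ≤ 1 / 4) : 1 < Cc s := by
  obtain ⟨a, b⟩ := cos_bd h0.le h1
  have := cos_lt h0 h1
  unfold Cc
  nlinarith

theorem cosh_Yy {s : ℝ} (h : 1 ≤ Cc s) : Real.cosh (Yy s) = Cc s := by
  unfold Yy
  rw [Real.cosh_arsinh, Real.sq_sqrt (by nlinarith)]
  rw [show 1 + (Cc s ^ 2 - 1) = Cc s ^ 2 by ring, Real.sqrt_sq (by linarith)]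

theorem sinh_Yy {s : ℝ} : Real.sinh (Yy s) = √(Cc s ^ 2 - 1) := Real.sinh_arsinh _

theorem Yy_pos {s : ℝ} (h : 1 < Cc s) : 0 < Yy s := by
  unfold Yy
  rw [Real.arsinh_pos_iff]
  exact Real.sqrt_pos.2 (by nlinarith)

theorem cos_bb {s : ℝ} (h0 : 0 ≤ s) (h1 : s ≤ 1 / 4) :
    Real.cos (2 * π * bb s) = 1 / 2 - Real.cos (π * s) := by
  obtain ⟨a, b⟩ := cos_bd h0 h1
  unfold bb
  rw [mul_div_cancel₀ _ (by positivity), Real.cos_arccos (by linarith) (by linarith)]

theorem bb_bd {s : ℝ} (h0 : 0 ≤ s) (h1 : s ≤ 1 / 4) : 1 / 4 < bb s ∧ bb s < 1 / 2 := by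
  obtain ⟨a, b⟩ := cos_bd h0 h1
  unfold bb
  constructor
  · rw [lt_div_iff₀ (by positivity)]
    have : π / 2 < Real.arccos (1 / 2 - Real.cos (π * s)) := by
      rw [← Real.arccos_zero]
      exact Real.arccos_lt_arccos (by linarith) (by linarith) (by norm_num)
    linarith
  · rw [div_lt_iff₀ (by positivity)]
    have : Real.arccos (1 / 2 - Real.cos (π * s)) < π :=
      (Real.arccos_lt_arccos (le_refl _) (by linarith) (by linarith)).trans_eq
        Real.arccos_neg_one
    linarith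

theorem bb_zero : bb 0 = 1 / 3 := by
  unfold bb
  rw [mul_zero, Real.cos_zero, show (1 : ℝ) / 2 - 1 = - (1 / 2) by norm_num, Real.arccos_neg]
  have h1 : Real.arccos (1 / 2) = π / 3 := by
    rw [← Real.cos_pi_div_three, Real.arccos_cos (by positivity) (by linarith [Real.pi_pos])]
  rw [h1]
  field_simp
  ring

theorem be_zero : be 0 = π / 6 := by
  unfold be
  rw [mul_zero, Real.cos_zero, show (1 : ℝ) - 1 / 2 = 1 / 2 by norm_num]
  have h1 : Real.arccos (1 / 2) = π / 3 := by
    rw [← Real.cos_pi_div_three, Real.arccos_cos (by positivity) (by linarith [Real.pi_pos])]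
  rw [h1]
  ring

theorem key_b {s : ℝ} (h0 : 0 ≤ s) (h1 : s ≤ 1 / 4) :
    2 * Cc s - 2 * Real.cos (2 * π * bb s) = (2 * Real.sin (2 * π * bb s)) ^ 2 := by
  have h2 := cos_bb h0 h1
  have h3 := Real.sin_sq_add_cos_sq (2 * π * bb s)
  rw [h2] at h3 ⊢
  unfold Cc
  nlinarith

theorem sin_bb_pos {s : ℝ} (h0 : 0 ≤ s) (h1 : s ≤ 1 / 4) : 0 < Real.sin (2 * π * bb s) := by
  obtain ⟨a, b⟩ := bb_bd h0 h1
  exact Real.sin_pos_of_pos_of_lt_pi (by positivity) (by nlinarith [Real.pi_pos])

/-- the integral of the Poisson kernel -/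
theorem int_poisson {y b : ℝ} (hy : 0 < y) (hb : 0 < b) (hb' : b < 1 / 2) :
    ∫ t in b..(1 - b), Real.sinh y / (Real.cosh y - Real.cos (2 * π * t)) =
      2 / π * Real.arctan (Real.tanh (y / 2) * (Real.cos (π * b) / Real.sin (π * b))) := by
  have hT : 0 < Real.tanh (y / 2) := by
    rw [Real.tanh_eq_sinh_div_cosh]
    exact div_pos (Real.sinh_pos_iff.2 (by positivity)) (Real.cosh_pos _)
  have hd : ∀ t ∈ uIcc b (1 - b), HasDerivAt (fun t => -(1 / π) * Real.arctan
      (Real.tanh (y / 2) * (Real.cos (π * t) / Real.sin (π * t))))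
      (Real.sinh y / (Real.cosh y - Real.cos (2 * π * t))) t := by
    intro t ht
    rw [uIcc_of_le (by linarith)] at ht
    have hs : 0 < Real.sin (π * t) :=
      Real.sin_pos_of_pos_of_lt_pi (mul_pos Real.pi_pos (by linarith [ht.1]))
        (by nlinarith [ht.2, Real.pi_pos])
    have h1 : HasDerivAt (fun t : ℝ => π * t) π t := by
      simpa using (hasDerivAt_id t).const_mul π
    have h2 := (h1.cos.div h1.sin hs.ne').const_mul (Real.tanh (y / 2))
    have h3 := (h2.arctan).const_mul (-(1 / π))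
    refine h3.congr_deriv (Eq.symm ?_)
    simp only [Pi.div_apply]
    have e1 : Real.cosh y = 2 * Real.sinh (y / 2) ^ 2 + 1 := by
      have := Real.cosh_two_mul (y / 2)
      rw [show 2 * (y / 2) = y by ring] at this
      have h4 := Real.cosh_sq (y / 2)
      rw [this, h4]
      ring
    have e2 : Real.sinh y = 2 * Real.sinh (y / 2) * Real.cosh (y / 2) := by
      have := Real.sinh_two_mul (y / 2)
      rwa [show 2 * (y / 2) = y by ring] at this
    have e3 : Real.cos (2 * π * t) = 1 - 2 * Real.sin (π * t) ^ 2 := by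
      have := Real.cos_two_mul (π * t)
      have h4 := Real.sin_sq_add_cos_sq (π * t)
      rw [show 2 * π * t = 2 * (π * t) by ring, this]
      linarith
    have hc : 0 < Real.cosh (y / 2) := Real.cosh_pos _
    have h5 := Real.cosh_sq (y / 2)
    have h6 := Real.sin_sq_add_cos_sq (π * t)
    have h7 : 0 < Real.sinh (y / 2) := Real.sinh_pos_iff.2 (by positivity)
    rw [e1, e2, e3, Real.tanh_eq_sinh_div_cosh]
    set S := Real.sin (π * t)
    set K := Real.cos (π * t)
    set A := Real.sinh (y / 2)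
    set B := Real.cosh (y / 2)
    have h8 : 0 < A ^ 2 + S ^ 2 := by positivity
    have h9 : 0 < B ^ 2 * S ^ 2 + A ^ 2 * K ^ 2 := by positivity
    have h10 : B ^ 2 * S ^ 2 + A ^ 2 * K ^ 2 = A ^ 2 + S ^ 2 := by
      rw [h5]
      linear_combination A ^ 2 * h6
    have h11 : 1 + (A / B * (K / S)) ^ 2 = (A ^ 2 + S ^ 2) / (B ^ 2 * S ^ 2) := by
      rw [← h10]
      field_simp
    rw [h11]
    have h12 : -S * π * S - K * (K * π) = -π := by linear_combination (-π) * h6
    rw [h12]
    have h13 : 2 * A ^ 2 + 1 - (1 - 2 * S ^ 2) = 2 * (A ^ 2 + S ^ 2) := by ring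
    rw [h13]
    field_simp
  have hi : IntervalIntegrable (fun t => Real.sinh y / (Real.cosh y - Real.cos (2 * π * t)))
      volume b (1 - b) := by
    refine Continuous.intervalIntegrable ?_ _ _
    refine Continuous.div continuous_const (by fun_prop) fun t => ?_
    have h1 := Real.one_lt_cosh.2 hy.ne'
    have h2 := Real.cos_le_one (2 * π * t)
    linarith
  rw [intervalIntegral.integral_eq_sub_of_hasDerivAt hd hi]
  have e1 : π * (1 - b) = π - π * b := by ring
  rw [e1, Real.cos_pi_sub, Real.sin_pi_sub, neg_div, mul_neg, Real.arctan_neg]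
  ring

theorem int_star {s : ℝ} (h0 : 0 < s) (h1 : s ≤ 1 / 4) :
    ∫ t in (bb s)..(1 - bb s), Real.sinh (Yy s) / (Cc s - Real.cos (2 * π * t)) = s := by
  have hC := Cc_gt h0 h1
  obtain ⟨b1, b2⟩ := bb_bd h0.le h1
  obtain ⟨g1, g2⟩ := cos_bd h0.le h1
  have hY := Yy_pos hC
  have h2 := int_poisson hY (b := bb s) (by linarith) b2
  rw [cosh_Yy hC.le] at h2
  rw [h2]
  have hT : 0 < Real.tanh (Yy s / 2) := by
    rw [Real.tanh_eq_sinh_div_cosh]
    exact div_pos (Real.sinh_pos_iff.2 (by positivity)) (Real.cosh_pos _)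
  have hsb : 0 < Real.sin (π * bb s) :=
    Real.sin_pos_of_pos_of_lt_pi (mul_pos Real.pi_pos (by linarith)) (by nlinarith [Real.pi_pos])
  have hcb : 0 < Real.cos (π * bb s) :=
    Real.cos_pos_of_mem_Ioo ⟨by nlinarith [Real.pi_pos], by nlinarith [Real.pi_pos]⟩
  have hss : 0 < Real.sin (π * s / 2) :=
    Real.sin_pos_of_pos_of_lt_pi (by positivity) (by nlinarith [Real.pi_pos])
  have hcs : 0 < Real.cos (π * s / 2) :=
    Real.cos_pos_of_mem_Ioo ⟨by nlinarith [Real.pi_pos], by nlinarith [Real.pi_pos]⟩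
  have hcY : 0 < Real.cosh (Yy s / 2) := Real.cosh_pos _
  have hsY : 0 < Real.sinh (Yy s / 2) := Real.sinh_pos_iff.2 (by positivity)
  have key : Real.tanh (Yy s / 2) * (Real.cos (π * bb s) / Real.sin (π * bb s)) =
      Real.tan (π * s / 2) := by
    rw [Real.tanh_eq_sinh_div_cosh, Real.tan_eq_sin_div_cos]
    refine (pow_left_inj₀ (by positivity) (by positivity) two_ne_zero).1 ?_
    have e1 : Real.cosh (Yy s) = 2 * Real.sinh (Yy s / 2) ^ 2 + 1 := by
      have := Real.cosh_two_mul (Yy s / 2)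
      rw [show 2 * (Yy s / 2) = Yy s by ring] at this
      have h4 := Real.cosh_sq (Yy s / 2)
      rw [this, h4]
      ring
    have h4 := Real.cosh_sq (Yy s / 2)
    rw [cosh_Yy hC.le] at e1
    have e2 := Real.cos_two_mul (π * bb s)
    have e3 := Real.sin_sq_add_cos_sq (π * bb s)
    rw [show 2 * (π * bb s) = 2 * π * bb s by ring, cos_bb h0.le h1] at e2
    have e4 := Real.cos_two_mul (π * s / 2)
    have e5 := Real.sin_sq_add_cos_sq (π * s / 2)
    rw [show 2 * (π * s / 2) = π * s by ring] at e4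
    rw [mul_pow, div_pow, div_pow, div_pow]
    have f1 : Real.sinh (Yy s / 2) ^ 2 = (Cc s - 1) / 2 := by linarith
    have f2 : Real.cosh (Yy s / 2) ^ 2 = (Cc s + 1) / 2 := by linarith
    have f3 : Real.cos (π * bb s) ^ 2 = (3 / 2 - Real.cos (π * s)) / 2 := by linarith
    have f4 : Real.sin (π * bb s) ^ 2 = (1 / 2 + Real.cos (π * s)) / 2 := by linarith
    have f5 : Real.cos (π * s / 2) ^ 2 = (1 + Real.cos (π * s)) / 2 := by linarith
    have f6 : Real.sin (π * s / 2) ^ 2 = (1 - Real.cos (π * s)) / 2 := by linarith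
    rw [f1, f2, f3, f4, f5, f6]
    rw [div_mul_div_comm, div_eq_div_iff (by
      have : 0 < (Cc s + 1) / 2 * ((1 / 2 + Real.cos (π * s)) / 2) := by
        apply mul_pos <;> linarith
      exact this.ne') (by linarith)]
    unfold Cc
    ring
  rw [key, Real.arctan_tan (by nlinarith [Real.pi_pos]) (by nlinarith [Real.pi_pos])]
  field_simp


/-- the clamped integrand -/
noncomputable def Hc (c t : ℝ) : ℝ :=
  Real.log (2 * max c 1 + 2 * max (-Real.cos (2 * π * t)) 0)

theorem Hc_arg (c t : ℝ) : 0 < 2 * max c 1 + 2 * max (-Real.cos (2 * π * t)) 0 := by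
  have h1 := le_max_right c 1
  have h2 := le_max_right (-Real.cos (2 * π * t)) 0
  linarith

theorem Hc_cont {X : Type*} [TopologicalSpace X] {c t : X → ℝ} (hc : Continuous c)
    (ht : Continuous t) : Continuous (fun x => Hc (c x) (t x)) := by
  unfold Hc
  refine Continuous.log ?_ fun x => (Hc_arg _ _).ne'
  fun_prop

theorem cos_neg_mid {t : ℝ} (h0 : 1 / 4 ≤ t) (h1 : t ≤ 3 / 4) : Real.cos (2 * π * t) ≤ 0 :=
  Real.cos_nonpos_of_pi_div_two_le_of_le (by nlinarith [Real.pi_pos]) (by nlinarith [Real.pi_pos])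

theorem Hc_eq {c t : ℝ} (hc : 1 ≤ c) (h0 : 1 / 4 ≤ t) (h1 : t ≤ 3 / 4) :
    Hc c t = Real.log (2 * c - 2 * Real.cos (2 * π * t)) := by
  unfold Hc
  rw [max_eq_left hc, max_eq_left (by linarith [cos_neg_mid h0 h1])]
  congr 1
  ring

theorem Cc_cont : Continuous Cc := by unfold Cc; fun_prop
theorem bb_cont : Continuous bb := by
  unfold bb
  exact (Real.continuous_arccos.comp (by fun_prop)).div_const _
theorem be_cont : Continuous be := by
  unfold be
  exact (Real.continuous_arccos.comp (by fun_prop)).div_const _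
theorem Yy_cont : Continuous Yy := by
  unfold Yy
  exact Real.continuous_arsinh.comp (Real.continuous_sqrt.comp ((Cc_cont.pow 2).sub continuous_const))

noncomputable def JJ (s : ℝ) : ℝ := ∫ t in (bb s)..(1 - bb s), Hc (Cc s) t

theorem Hc_ii (c a b : ℝ) : IntervalIntegrable (Hc c) volume a b :=
  (Hc_cont continuous_const continuous_id).intervalIntegrable _ _

theorem JJ_cont : Continuous JJ := by
  have h : Continuous (Function.uncurry fun s t => Hc (Cc s) t) :=
    Hc_cont (Cc_cont.comp continuous_fst) continuous_snd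
  have h1 : Continuous fun s => ∫ t in (1 / 2)..(1 - bb s), Hc (Cc s) t :=
    intervalIntegral.continuous_parametric_intervalIntegral_of_continuous h
      (continuous_const.sub bb_cont)
  have h2 : Continuous fun s => ∫ t in (1 / 2)..(bb s), Hc (Cc s) t :=
    intervalIntegral.continuous_parametric_intervalIntegral_of_continuous h bb_cont
  refine (h1.sub h2).congr fun s => ?_
  unfold JJ
  simp only [Pi.sub_apply]
  rw [intervalIntegral.integral_interval_sub_left (Hc_ii _ _ _) (Hc_ii _ _ _)]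

/-- the derivative in the parameter -/
theorem Hc_param {c b : ℝ} (hc : 1 < c) (hb : 1 / 4 < b) (hb' : b < 1 / 2) :
    HasDerivAt (fun c => ∫ t in b..(1 - b), Hc c t)
      (∫ t in b..(1 - b), 1 / (c - Real.cos (2 * π * t))) c := by
  refine (intervalIntegral.hasDerivAt_integral_of_dominated_loc_of_deriv_le
    (F := Hc) (F' := fun c t => 1 / (c - Real.cos (2 * π * t))) (s := Set.Ioi 1)
    (bound := fun _ => 1) (Ioi_mem_nhds hc) ?_ (Hc_ii _ _ _) ?_ ?_
    intervalIntegrable_const ?_).2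
  · exact Filter.Eventually.of_forall fun c =>
      (Hc_cont continuous_const continuous_id).aestronglyMeasurable
  · refine Measurable.aestronglyMeasurable ?_
    fun_prop
  · refine Filter.Eventually.of_forall fun t ht x hx => ?_
    rw [uIoc_of_le (by linarith)] at ht
    have h1 := cos_neg_mid (t := t) (by linarith [ht.1]) (by linarith [ht.2])
    have h2 : (1 : ℝ) < x := hx
    rw [Real.norm_eq_abs, abs_of_pos (by apply one_div_pos.2; linarith)]
    rw [div_le_one (by linarith)]
    linarith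
  · refine Filter.Eventually.of_forall fun t ht x hx => ?_
    rw [uIoc_of_le (by linarith)] at ht
    have h1 := cos_neg_mid (t := t) (by linarith [ht.1]) (by linarith [ht.2])
    have h2 : (1 : ℝ) < x := hx
    have h3 : HasDerivAt (fun c : ℝ => 2 * c - 2 * Real.cos (2 * π * t)) 2 x := by
      simpa using ((hasDerivAt_id x).const_mul 2).sub_const (2 * Real.cos (2 * π * t))
    have h4 := h3.log (by linarith)
    have h5 : HasDerivAt (fun c => Hc c t) (2 / (2 * x - 2 * Real.cos (2 * π * t))) x := by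
      refine h4.congr_of_eventuallyEq ?_
      filter_upwards [Ioi_mem_nhds h2] with c hc'
      exact Hc_eq (le_of_lt hc') (by linarith [ht.1]) (by linarith [ht.2])
    refine h5.congr_deriv ?_
    have h6 : x - Real.cos (2 * π * t) ≠ 0 := by linarith
    rw [← mul_sub]
    field_simp

theorem JJ_deriv {s b' y' : ℝ} (h0 : 0 < s) (h1 : s < 1 / 4) (hb : HasDerivAt bb b' s)
    (hy : HasDerivAt Yy y' s) :
    HasDerivAt JJ (-(4 * b' * Real.log (2 * Real.sin (2 * π * bb s))) + y' * s) s := by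
  have hC := Cc_gt h0 h1.le
  obtain ⟨b1, b2⟩ := bb_bd h0.le h1.le
  have h : Continuous (Function.uncurry fun s t => Hc (Cc s) t) :=
    Hc_cont (Cc_cont.comp continuous_fst) continuous_snd
  have d1 := deriv_moving h hb
  have d2 := deriv_moving h (hb.const_sub 1)
  have hCd : HasDerivAt Cc (Real.sinh (Yy s) * y') s := by
    refine hy.cosh.congr_of_eventuallyEq ?_
    have h2 : ∀ᶠ u in 𝓝 s, 1 < Cc u := Cc_cont.continuousAt.eventually_const_lt hC
    filter_upwards [h2] with u hu
    exact (cosh_Yy hu.le).symm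
  have d3 := (Hc_param hC b1 b2).comp s hCd
  have d4 := (d3.add d2).sub d1
  have e : JJ = fun u => ((∫ t in (bb s)..(1 - bb s), Hc (Cc u) t) +
      ∫ t in (1 - bb s)..(1 - bb u), Hc (Cc u) t) - ∫ t in (bb s)..(bb u), Hc (Cc u) t := by
    funext u
    unfold JJ
    rw [intervalIntegral.integral_add_adjacent_intervals (Hc_ii _ _ _) (Hc_ii _ _ _),
      intervalIntegral.integral_interval_sub_left (Hc_ii _ _ _) (Hc_ii _ _ _)]
  rw [e]
  refine d4.congr_deriv ?_
  have hs := sin_bb_pos h0.le h1.le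
  have e1 : Hc (Cc s) (bb s) = 2 * Real.log (2 * Real.sin (2 * π * bb s)) := by
    rw [Hc_eq hC.le (by linarith) (by linarith), key_b h0.le h1.le, Real.log_pow]
    norm_num
  have e2 : Hc (Cc s) (1 - bb s) = 2 * Real.log (2 * Real.sin (2 * π * bb s)) := by
    rw [Hc_eq hC.le (by linarith) (by linarith), show 2 * π * (1 - bb s) = 2 * π - 2 * π * bb s by
      ring, Real.cos_two_pi_sub, key_b h0.le h1.le, Real.log_pow]
    norm_num
  rw [e1, e2]
  have e3 : (∫ t in (bb s)..(1 - bb s), 1 / (Cc s - Real.cos (2 * π * t))) *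
      (Real.sinh (Yy s) * y') = y' * s := by
    have := int_star h0 h1.le
    have h5 : ∫ t in (bb s)..(1 - bb s), Real.sinh (Yy s) / (Cc s - Real.cos (2 * π * t)) =
        Real.sinh (Yy s) * ∫ t in (bb s)..(1 - bb s), 1 / (Cc s - Real.cos (2 * π * t)) := by
      rw [← intervalIntegral.integral_const_mul]
      refine intervalIntegral.integral_congr fun t _ => ?_
      ring
    rw [h5] at this
    calc _ = y' * (Real.sinh (Yy s) * ∫ t in (bb s)..(1 - bb s),
          1 / (Cc s - Real.cos (2 * π * t))) := by ring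
      _ = y' * s := by rw [this]
  rw [e3]
  ring

theorem bb_diff {s : ℝ} (h0 : 0 < s) (h1 : s < 1 / 4) : ∃ b', HasDerivAt bb b' s := by
  obtain ⟨g1, g2⟩ := cos_bd h0.le h1.le
  have h2 : HasDerivAt (fun s : ℝ => 1 / 2 - Real.cos (π * s)) _ s :=
    (((hasDerivAt_id s).const_mul π).cos).const_sub (1 / 2)
  have h3 := (Real.hasDerivAt_arccos (x := 1 / 2 - Real.cos (π * s)) (by linarith) (by linarith))
  exact ⟨_, (HasDerivAt.comp s h3 h2).div_const _⟩

theorem be_diff {s : ℝ} (h0 : 0 < s) (h1 : s < 1 / 4) : ∃ b', HasDerivAt be b' s := by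
  obtain ⟨g1, g2⟩ := cos_bd h0.le h1.le
  have h2 : HasDerivAt (fun s : ℝ => Real.cos (π * s) - 1 / 2) _ s :=
    (((hasDerivAt_id s).const_mul π).cos).sub_const (1 / 2)
  have h3 := (Real.hasDerivAt_arccos (x := Real.cos (π * s) - 1 / 2) (by linarith) (by linarith))
  exact ⟨_, (HasDerivAt.comp s h3 h2).div_const _⟩

theorem Yy_diff {s : ℝ} (h0 : 0 < s) (h1 : s < 1 / 4) : ∃ b', HasDerivAt Yy b' s := by
  have hC := Cc_gt h0 h1.le
  have h2 : DifferentiableAt ℝ Cc s := by
    unfold Cc
    fun_prop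
  have h3 := ((h2.hasDerivAt.pow 2).sub_const 1).sqrt (by nlinarith : Cc s ^ 2 - 1 ≠ 0)
  exact ⟨_, h3.arsinh⟩

noncomputable def Phi (s : ℝ) : ℝ := 2 * Lc (1 - 2 * bb s) + JJ s - s * Yy s
noncomputable def Psi (s : ℝ) : ℝ := 2 * (Lc ((be s + π * s / 2) / π) + Lc ((be s - π * s / 2) / π))

theorem Phi_deriv {s : ℝ} (h0 : 0 < s) (h1 : s < 1 / 4) : HasDerivAt Phi (-Yy s) s := by
  obtain ⟨b', hb⟩ := bb_diff h0 h1
  obtain ⟨y', hy⟩ := Yy_diff h0 h1
  obtain ⟨b1, b2⟩ := bb_bd h0.le h1.le
  have h2 : HasDerivAt (fun s => 1 - 2 * bb s) (-(2 * b')) s := (hb.const_mul 2).const_sub 1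
  have h3 := ((Lc_deriv (δ := 1 - 2 * bb s) (by linarith) (by linarith)).comp s h2).const_mul 2
  have h4 := (h3.add (JJ_deriv h0 h1 hb hy)).sub ((hasDerivAt_id s).mul hy)
  refine (HasDerivAt.congr_deriv (f := Phi) h4 ?_)
  rw [show π * (1 - 2 * bb s) = π - 2 * π * bb s by ring, Real.sin_pi_sub]
  simp only [id_eq]
  ring

theorem be_bd {s : ℝ} (h0 : 0 ≤ s) (h1 : s ≤ 1 / 4) : π / 6 ≤ be s ∧ be s < π / 4 := by
  obtain ⟨a, b⟩ := cos_bd h0 h1
  unfold be
  constructor
  · have h2 : Real.arccos (1 / 2) = π / 3 := by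
      rw [← Real.cos_pi_div_three, Real.arccos_cos (by positivity) (by linarith [Real.pi_pos])]
    have : Real.arccos (1 / 2) ≤ Real.arccos (Real.cos (π * s) - 1 / 2) :=
      Real.arccos_le_arccos (by linarith)
    linarith
  · have : Real.arccos (Real.cos (π * s) - 1 / 2) < Real.arccos 0 :=
      Real.arccos_lt_arccos (by norm_num) (by linarith) (by linarith)
    rw [Real.arccos_zero] at this
    linarith

theorem Yy_eq {s : ℝ} (h0 : 0 < s) (h1 : s < 1 / 4) :
    0 < Real.sin (be s + π * s / 2) ∧ 0 < Real.sin (be s - π * s / 2) ∧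
    Yy s = 2 * Real.log (2 * Real.sin (be s + π * s / 2)) ∧
    Real.log (2 * Real.sin (be s + π * s / 2)) + Real.log (2 * Real.sin (be s - π * s / 2)) = 0 := by
  obtain ⟨a1, a2⟩ := be_bd h0.le h1.le
  obtain ⟨g1, g2⟩ := cos_bd h0.le h1.le
  have hC := Cc_gt h0 h1.le
  have hp := Real.pi_pos
  have q1 : π * s < π * (1 / 4) := mul_lt_mul_of_pos_left h1 hp
  have q2 : 0 < π * s := by positivity
  have s1 : 0 < Real.sin (be s + π * s / 2) :=
    Real.sin_pos_of_pos_of_lt_pi (by linarith) (by linarith)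
  have s2 : 0 < Real.sin (be s - π * s / 2) :=
    Real.sin_pos_of_pos_of_lt_pi (by linarith) (by linarith)
  have s3 : Real.sin (be s - π * s / 2) < Real.sin (be s + π * s / 2) :=
    Real.sin_lt_sin_of_lt_of_le_pi_div_two (by linarith) (by linarith) (by linarith)
  have c1 : Real.cos (2 * be s) = Real.cos (π * s) - 1 / 2 := by
    unfold be
    rw [mul_div_cancel₀ _ (by norm_num), Real.cos_arccos (by linarith) (by linarith)]
  have c2 : Real.cos (2 * (π * s / 2)) = Real.cos (π * s) := by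
    congr 1
    ring
  have t1 := Real.cos_two_mul (be s)
  have t2 := Real.cos_two_mul (π * s / 2)
  have t3 := Real.sin_sq_add_cos_sq (be s)
  have t4 := Real.sin_sq_add_cos_sq (π * s / 2)
  rw [c1] at t1
  rw [c2] at t2
  have u1 : (2 * Real.sin (be s + π * s / 2)) * (2 * Real.sin (be s - π * s / 2)) = 1 := by
    rw [Real.sin_add, Real.sin_sub]
    have : (2 * (Real.sin (be s) * Real.cos (π * s / 2) + Real.cos (be s) * Real.sin (π * s / 2))) *
        (2 * (Real.sin (be s) * Real.cos (π * s / 2) - Real.cos (be s) * Real.sin (π * s / 2))) =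
        4 * (Real.sin (be s) ^ 2 * Real.cos (π * s / 2) ^ 2 -
          Real.cos (be s) ^ 2 * Real.sin (π * s / 2) ^ 2) := by ring
    rw [this]
    have f1 : Real.sin (be s) ^ 2 = 1 - Real.cos (be s) ^ 2 := by linarith
    have f2 : Real.sin (π * s / 2) ^ 2 = 1 - Real.cos (π * s / 2) ^ 2 := by linarith
    rw [f1, f2]
    linarith
  have u2 : (2 * Real.sin (be s + π * s / 2)) ^ 2 + (2 * Real.sin (be s - π * s / 2)) ^ 2 =
      2 * Cc s := by
    rw [Real.sin_add, Real.sin_sub]
    have : (2 * (Real.sin (be s) * Real.cos (π * s / 2) + Real.cos (be s) * Real.sin (π * s / 2))) ^ 2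
        + (2 * (Real.sin (be s) * Real.cos (π * s / 2) -
          Real.cos (be s) * Real.sin (π * s / 2))) ^ 2 =
        8 * (Real.sin (be s) ^ 2 * Real.cos (π * s / 2) ^ 2 +
          Real.cos (be s) ^ 2 * Real.sin (π * s / 2) ^ 2) := by ring
    rw [this]
    have f1 : Real.sin (be s) ^ 2 = 1 - Real.cos (be s) ^ 2 := by linarith
    have f2 : Real.sin (π * s / 2) ^ 2 = 1 - Real.cos (π * s / 2) ^ 2 := by linarith
    have f3 : Real.cos (be s) ^ 2 = (Real.cos (π * s) + 1 / 2) / 2 := by linarith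
    have f4 : Real.cos (π * s / 2) ^ 2 = (Real.cos (π * s) + 1) / 2 := by linarith
    rw [f1, f2, f3, f4]
    unfold Cc
    ring
  have u3 : Real.log (2 * Real.sin (be s + π * s / 2)) +
      Real.log (2 * Real.sin (be s - π * s / 2)) = 0 := by
    rw [← Real.log_mul (by positivity) (by positivity), u1, Real.log_one]
  refine ⟨s1, s2, ?_, u3⟩
  have u4 : 1 < 2 * Real.sin (be s + π * s / 2) := by nlinarith
  have u5 := Real.log_pos u4
  have u6 : Real.cosh (2 * Real.log (2 * Real.sin (be s + π * s / 2))) = Real.cosh (Yy s) := by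
    rw [cosh_Yy hC.le, Real.cosh_eq]
    have v1 : Real.exp (2 * Real.log (2 * Real.sin (be s + π * s / 2))) =
        (2 * Real.sin (be s + π * s / 2)) ^ 2 := by
      rw [two_mul (Real.log _), Real.exp_add, Real.exp_log (by positivity)]
      ring
    have v2 : Real.exp (-(2 * Real.log (2 * Real.sin (be s + π * s / 2)))) =
        (2 * Real.sin (be s - π * s / 2)) ^ 2 := by
      have : -(2 * Real.log (2 * Real.sin (be s + π * s / 2))) =
          2 * Real.log (2 * Real.sin (be s - π * s / 2)) := by linarith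
      rw [this, two_mul (Real.log _), Real.exp_add, Real.exp_log (by positivity)]
      ring
    rw [v1, v2, u2]
    ring
  have u7 := Yy_pos hC
  have u8 := Real.cosh_le_cosh.1 u6.le
  have u9 := Real.cosh_le_cosh.1 u6.ge
  rw [abs_of_pos u7, abs_of_pos (by positivity : 0 < 2 * Real.log (2 * Real.sin (be s + π * s / 2)))]
    at u8
  rw [abs_of_pos u7, abs_of_pos (by positivity : 0 < 2 * Real.log (2 * Real.sin (be s + π * s / 2)))]
    at u9
  linarith

theorem Psi_deriv {s : ℝ} (h0 : 0 < s) (h1 : s < 1 / 4) : HasDerivAt Psi (-Yy s) s := by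
  obtain ⟨b', hb⟩ := be_diff h0 h1
  obtain ⟨a1, a2⟩ := be_bd h0.le h1.le
  obtain ⟨s1, s2, y1, y2⟩ := Yy_eq h0 h1
  have hp := Real.pi_pos
  have q1 : π * s < π * (1 / 4) := mul_lt_mul_of_pos_left h1 hp
  have q2 : 0 < π * s := by positivity
  have h2 : HasDerivAt (fun s : ℝ => π * s / 2) (π / 2) s := by
    simpa using ((hasDerivAt_id s).const_mul π).div_const 2
  have h3 := (Lc_deriv (δ := (be s + π * s / 2) / π) (by
    apply div_pos _ hp; linarith) (by rw [div_lt_one hp]; linarith)).comp s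
    ((hb.add h2).div_const π)
  have h4 := (Lc_deriv (δ := (be s - π * s / 2) / π) (by
    apply div_pos _ hp; linarith) (by rw [div_lt_one hp]; linarith)).comp s
    ((hb.sub h2).div_const π)
  refine (HasDerivAt.congr_deriv (f := Psi) ((h3.add h4).const_mul 2) ?_)
  rw [mul_div_cancel₀ _ hp.ne', mul_div_cancel₀ _ hp.ne', y1]
  have : Real.log (2 * Real.sin (be s - π * s / 2)) =
    -Real.log (2 * Real.sin (be s + π * s / 2)) := by linarith
  rw [this]
  field_simp
  ring

theorem Phi_cont : Continuous Phi := by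
  unfold Phi
  exact ((continuous_const.mul (Lc_cont.comp (continuous_const.sub
    (continuous_const.mul bb_cont)))).add JJ_cont).sub (continuous_id.mul Yy_cont)

theorem Psi_cont : Continuous Psi := by
  unfold Psi
  have h : Continuous fun s : ℝ => π * s / 2 := by fun_prop
  exact continuous_const.mul ((Lc_cont.comp ((be_cont.add h).div_const _)).add
    (Lc_cont.comp ((be_cont.sub h).div_const _)))

theorem Cc_zero : Cc 0 = 1 := by
  unfold Cc
  rw [mul_zero, Real.cos_zero]
  norm_num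

theorem zero_eq : Phi 0 = Psi 0 := by
  have h1 : JJ 0 = 2 * (Lc (1 / 3) - Lc (1 - 1 / 3)) := by
    unfold JJ
    rw [bb_zero, Cc_zero, ← Lc_sub, ← intervalIntegral.integral_const_mul]
    refine intervalIntegral.integral_congr fun t ht => ?_
    rw [uIcc_of_le (by norm_num)] at ht
    show Hc 1 t = 2 * Real.log (2 * Real.sin (π * t))
    rw [Hc_eq le_rfl (by linarith [ht.1]) (by linarith [ht.2])]
    have h2 : 2 * (1 : ℝ) - 2 * Real.cos (2 * π * t) = (2 * Real.sin (π * t)) ^ 2 := by
      have h3 := Real.cos_two_mul (π * t)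
      have h4 := Real.sin_sq_add_cos_sq (π * t)
      rw [show 2 * π * t = 2 * (π * t) by ring, h3]
      nlinarith
    rw [h2, Real.log_pow]
    norm_num
  have h2 : Phi 0 = 6 * Lc (1 / 3) := by
    unfold Phi
    rw [h1, bb_zero, show (1 : ℝ) - 2 * (1 / 3) = 1 / 3 by norm_num, Lc_refl]
    ring
  have h3 : Psi 0 = 4 * Lc (1 / 6) := by
    unfold Psi
    rw [be_zero]
    have : (π / 6 + π * 0 / 2) / π = 1 / 6 := by field_simp; norm_num
    have h4 : (π / 6 - π * 0 / 2) / π = 1 / 6 := by field_simp; norm_num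
    rw [this, h4]
    ring
  rw [h2, h3, base0]

theorem main_eq {s : ℝ} (h0 : 0 < s) (h1 : s ≤ 1 / 4) : Phi s = Psi s := by
  obtain ⟨c, hc, h2⟩ := exists_hasDerivAt_eq_slope (fun u => Phi u - Psi u) (fun _ => 0) h0
    (Phi_cont.sub Psi_cont).continuousOn (fun x hx => by
      have := (Phi_deriv hx.1 (lt_of_lt_of_le hx.2 h1)).sub
        (Psi_deriv hx.1 (lt_of_lt_of_le hx.2 h1))
      rw [sub_self] at this
      exact this)
  have h3 := zero_eq
  rw [eq_comm, div_eq_zero_iff] at h2
  rcases h2 with h2 | h2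
  · linarith
  · linarith


theorem lob (θ : ℝ) : -∫ t in (0 : ℝ)..θ, Real.log |2 * Real.sin t| = π * Lc (θ / π) := by
  unfold Lc
  have h := intervalIntegral.integral_comp_mul_left (a := 0) (b := θ / π)
    (fun t => Real.log (2 * Real.sin t)) Real.pi_ne_zero
  have hp := Real.pi_ne_zero
  rw [h, mul_zero, mul_div_cancel₀ _ hp, smul_eq_mul]
  simp only [Real.log_abs]
  rw [mul_neg, ← mul_assoc, mul_inv_cancel₀ hp, one_mul]

theorem lf_eq {y t : ℝ} (h0 : 1 / 4 ≤ t) (h1 : t ≤ 3 / 4) :
    lf 0 y t = Hc (Real.cosh y) t := by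
  have h2 := Real.one_le_cosh y
  rw [Hc_eq h2 h0 h1]
  unfold lf
  have h3 := cos_neg_mid h0 h1
  have e : 2 * Complex.cos ((0 : ℝ) + y * Complex.I) - 2 * (Real.cos (2 * π * t) : ℂ) =
      ((2 * Real.cosh y - 2 * Real.cos (2 * π * t) : ℝ) : ℂ) := by
    rw [Complex.ofReal_zero, zero_add, Complex.cos_mul_I]
    push_cast
    rfl
  rw [e, Complex.norm_real, Real.norm_eq_abs, abs_of_pos (by linarith)]

/-- VOL: the growth rate is the volume of Mednykh and Vesnin -/
theorem vol : S_VOL := by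
  intro _ n hn
  have hn0 : (0 : ℝ) < n := by
    have : 0 < n := by omega
    exact_mod_cast this
  have hp := Real.pi_pos
  have h0 : (0 : ℝ) < 1 / n := by positivity
  have h1 : (1 : ℝ) / n ≤ 1 / 4 := one_div_le_one_div_of_le (by norm_num) (by exact_mod_cast hn)
  have hm := main_eq h0 h1
  have eg : π * (1 / (n : ℝ)) = π / n := by ring
  have eC : Ch n = Cc (1 / n) := by
    unfold Ch Cc ga
    rw [eg]
  have eY : yn n = Yy (1 / n) := by
    unfold yn Yy
    rw [eC]
  have eb : bs n = bb (1 / n) := by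
    unfold bs bb ga
    rw [eg]
  obtain ⟨b1, b2⟩ := bb_bd h0.le h1
  have hE : Es n = Lc (1 - 2 * bb (1 / n)) + 1 / 2 * JJ (1 / n) := by
    unfold Es Ep JJ
    rw [eb, eY]
    have h2 : (1 : ℝ) - bb (1 / n) - bb (1 / n) = 1 - 2 * bb (1 / n) := by ring
    rw [h2]
    congr 2
    refine intervalIntegral.integral_congr fun t ht => ?_
    rw [uIcc_of_le (by linarith)] at ht
    have h3 := lf_eq (y := Yy (1 / n)) (t := t) (by linarith [ht.1]) (by linarith [ht.2])
    rw [cosh_Yy (Cc_ge h0.le h1)] at h3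
    exact h3
  have hD : Dn n = n * Phi (1 / n) := by
    unfold Dn Phi
    rw [hE, eY]
    field_simp
  have ebe : Real.arccos (Real.cos (π / n) - 1 / 2) / 2 = be (1 / n) := by
    unfold be
    rw [eg]
  have ed : π / (2 * n) = π * (1 / (n : ℝ)) / 2 := by
    field_simp
  rw [hD, hm, lob, lob, ebe, ed]
  unfold Psi
  ring

end Pool.Agent.Y988.TK
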